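import Mathlib

set_option autoImplicit false

namespace Pool.Agent.R82.Rand

open Finset

variable {V : Type} [Fintype V] [DecidableEq V] {p : ℕ} [NeZero p]

/-- the colourings which are bad on the set `A`: some colour is missing on `A`, or the sum of the
colours of `A` is zero -/
def Bad (p : ℕ) [NeZero p] (A : Finset V) : Finset (V → ZMod p) :=
  univ.filter fun g => (∃ z, ∀ a ∈ A, g a ≠ z) ∨ ∑ a ∈ A, g a = 0

/-- counting functions with constraints on some coordinates -/
theorem card_constraint {ι G : Type} [Fintype ι] [DecidableEq ι] [Fintype G] [DecidableEq G]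
    (T : Finset ι) (B : Finset G) :
    ((univ : Finset (ι → G)).filter fun f => ∀ i ∈ T, f i ∈ B).card * Fintype.card G ^ T.card =
      B.card ^ T.card * Fintype.card (ι → G) := by
  have h1 : ((univ : Finset (ι → G)).filter fun f => ∀ i ∈ T, f i ∈ B) =
      Fintype.piFinset (fun i => if i ∈ T then B else univ) := by
    ext f
    simp only [mem_filter, mem_univ, true_and, Fintype.mem_piFinset]
    constructor
    · intro h i
      by_cases hi : i ∈ T
      · rw [if_pos hi]; exact h i hi
      · rw [if_neg hi]; exact mem_univ _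
    · intro h i hi
      have := h i
      rwa [if_pos hi] at this
  rw [h1, Fintype.card_piFinset, Fintype.card_pi]
  rw [← Finset.prod_mul_prod_compl T (fun i => (if i ∈ T then B else (univ : Finset G)).card)]
  have h2 : ∏ i ∈ T, (if i ∈ T then B else (univ : Finset G)).card = B.card ^ T.card := by
    rw [← Finset.prod_const]
    exact Finset.prod_congr rfl (fun i hi => by rw [if_pos hi])
  have h3 : ∏ i ∈ Tᶜ, (if i ∈ T then B else (univ : Finset G)).card =
      ∏ i ∈ Tᶜ, Fintype.card G := by
    refine Finset.prod_congr rfl (fun i hi => ?_)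
    rw [if_neg (mem_compl.1 hi), card_univ]
  rw [h2, h3, mul_assoc]
  congr 1
  have h4 : Fintype.card G ^ T.card = ∏ i ∈ T, Fintype.card G := by rw [Finset.prod_const]
  rw [h4, mul_comm]
  exact Finset.prod_mul_prod_compl T (fun _ => Fintype.card G)

/-- the number of colourings missing a given colour on `A` -/
theorem card_miss (A : Finset V) (z : ZMod p) :
    ((univ : Finset (V → ZMod p)).filter fun g => ∀ a ∈ A, g a ≠ z).card * p ^ A.card =
      (p - 1) ^ A.card * Fintype.card (V → ZMod p) := by
  have h := card_constraint (ι := V) (G := ZMod p) A (univ.erase z)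
  rw [ZMod.card, card_erase_of_mem (mem_univ z), card_univ, ZMod.card] at h
  rw [← h]
  congr 2
  ext g
  simp

/-- the number of colourings with zero sum on `A` -/
theorem card_zero (A : Finset V) (hA : A.Nonempty) :
    ((univ : Finset (V → ZMod p)).filter fun g => ∑ a ∈ A, g a = 0).card * p =
      Fintype.card (V → ZMod p) := by
  obtain ⟨b, hb⟩ := hA
  have h1 : ∀ z : ZMod p, ((univ : Finset (V → ZMod p)).filter fun g => ∑ a ∈ A, g a = z).card =
      ((univ : Finset (V → ZMod p)).filter fun g => ∑ a ∈ A, g a = 0).card := by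
    intro z
    refine Finset.card_bij' (fun g _ => g - Pi.single b z) (fun g _ => g + Pi.single b z) ?_ ?_ ?_ ?_
    · intro g hg
      rw [mem_filter] at hg ⊢
      refine ⟨mem_univ _, ?_⟩
      simp only [Pi.sub_apply, sum_sub_distrib]
      rw [hg.2, Finset.sum_eq_single b]
      · simp
      · intro c _ hc; exact Pi.single_eq_of_ne hc _
      · intro h; exact absurd hb h
    · intro g hg
      rw [mem_filter] at hg ⊢
      refine ⟨mem_univ _, ?_⟩
      simp only [Pi.add_apply, sum_add_distrib]
      rw [hg.2, Finset.sum_eq_single b]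
      · simp
      · intro c _ hc; exact Pi.single_eq_of_ne hc _
      · intro h; exact absurd hb h
    · intro g _; simp
    · intro g _; simp
  have h2 : (univ : Finset (V → ZMod p)).card =
      ∑ z : ZMod p, ((univ : Finset (V → ZMod p)).filter fun g => ∑ a ∈ A, g a = z).card :=
    Finset.card_eq_sum_card_fiberwise (fun _ _ => mem_univ _)
  rw [← card_univ, h2, Finset.sum_congr rfl (fun z _ => h1 z), sum_const, card_univ, ZMod.card,
    smul_eq_mul, mul_comm]

theorem bad_card (A : Finset V) {r : ℕ} (hr : 1 ≤ r) (hrA : r ≤ A.card)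
    (hp : p ^ 2 * (p - 1) ^ r ≤ p ^ r) :
    (Bad p A).card * p ≤ 2 * Fintype.card (V → ZMod p) := by
  have hp0 : 0 < p := Nat.pos_of_ne_zero (NeZero.ne p)
  have hA : A.Nonempty := card_pos.1 (by omega)
  have hp' : p ^ 2 * (p - 1) ^ A.card ≤ p ^ A.card := by
    obtain ⟨d, hd⟩ := Nat.exists_eq_add_of_le hrA
    rw [hd, pow_add, pow_add, ← mul_assoc]
    exact Nat.mul_le_mul hp (Nat.pow_le_pow_left (Nat.sub_le _ _) _)
  have hsub : Bad p A ⊆ ((univ : Finset (ZMod p)).biUnion fun z =>
      (univ : Finset (V → ZMod p)).filter fun g => ∀ a ∈ A, g a ≠ z) ∪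
      (univ : Finset (V → ZMod p)).filter fun g => ∑ a ∈ A, g a = 0 := by
    intro g hg
    unfold Bad at hg
    rw [mem_filter] at hg
    rw [mem_union]
    rcases hg.2 with ⟨z, hz⟩ | h
    · left
      rw [mem_biUnion]
      exact ⟨z, mem_univ _, mem_filter.2 ⟨mem_univ _, hz⟩⟩
    · right
      exact mem_filter.2 ⟨mem_univ _, h⟩
  have h1 := (card_le_card hsub).trans (card_union_le _ _)
  have h2 : ((univ : Finset (ZMod p)).biUnion fun z =>
      (univ : Finset (V → ZMod p)).filter fun g => ∀ a ∈ A, g a ≠ z).card * p ≤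
      Fintype.card (V → ZMod p) := by
    have h3 : ((univ : Finset (ZMod p)).biUnion fun z =>
      (univ : Finset (V → ZMod p)).filter fun g => ∀ a ∈ A, g a ≠ z).card * p ^ A.card ≤
        p * ((p - 1) ^ A.card * Fintype.card (V → ZMod p)) := by
      calc _ ≤ (∑ z : ZMod p, ((univ : Finset (V → ZMod p)).filter
              fun g => ∀ a ∈ A, g a ≠ z).card) * p ^ A.card :=
            Nat.mul_le_mul_right _ card_biUnion_le
        _ = ∑ z : ZMod p, (p - 1) ^ A.card * Fintype.card (V → ZMod p) := by
            rw [sum_mul]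
            exact Finset.sum_congr rfl (fun z _ => card_miss A z)
        _ = _ := by rw [sum_const, card_univ, ZMod.card, smul_eq_mul]
    have h4 : ((univ : Finset (ZMod p)).biUnion fun z =>
      (univ : Finset (V → ZMod p)).filter fun g => ∀ a ∈ A, g a ≠ z).card * p * p ^ A.card ≤
        Fintype.card (V → ZMod p) * p ^ A.card := by
      calc _ = (((univ : Finset (ZMod p)).biUnion fun z =>
              (univ : Finset (V → ZMod p)).filter fun g => ∀ a ∈ A, g a ≠ z).card *
                p ^ A.card) * p := by ring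
        _ ≤ (p * ((p - 1) ^ A.card * Fintype.card (V → ZMod p))) * p :=
            Nat.mul_le_mul_right _ h3
        _ = Fintype.card (V → ZMod p) * (p ^ 2 * (p - 1) ^ A.card) := by ring
        _ ≤ _ := Nat.mul_le_mul_left _ hp'
    exact Nat.le_of_mul_le_mul_right h4 (by positivity)
  have h5 := card_zero (p := p) A hA
  calc (Bad p A).card * p ≤ _ := Nat.mul_le_mul_right _ h1
    _ = _ := by rw [add_mul, h5]
    _ ≤ Fintype.card (V → ZMod p) + Fintype.card (V → ZMod p) := by gcongr
    _ = _ := by ring

/-- the random colouring -/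
theorem exists_colouring (p : ℕ) [NeZero p] {r t : ℕ} (hr : 1 ≤ r)
    (hp : p ^ 2 * (p - 1) ^ r ≤ p ^ r) (ht : 8 ^ Fintype.card V * 2 ^ t < p ^ t) :
    ∃ φ : Finset V → V → ZMod p, ∀ R A : Finset V, r ≤ A.card →
      ((univ : Finset V).filter fun x => x ∉ R ∧ φ (insert x R) ∈ Bad p A).card < t := by
  classical
  by_contra hcon
  push Not at hcon
  -- the triples
  set Tr : Finset (Finset V × Finset V × Finset V) := univ.filter fun q =>
    r ≤ q.2.1.card ∧ q.2.2.card = t ∧ Disjoint q.2.2 q.1 with hTr
  have hTrc : Tr.card ≤ 8 ^ Fintype.card V := by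
    refine (card_filter_le _ _).trans ?_
    rw [card_univ, Fintype.card_prod, Fintype.card_prod, Fintype.card_finset, ← pow_add, ← pow_add]
    have : (8 : ℕ) = 2 ^ 3 := by norm_num
    rw [this, ← pow_mul]
    exact Nat.pow_le_pow_right (by norm_num) (by omega)
  set N := Fintype.card (Finset V → V → ZMod p) with hN
  have hcover : (univ : Finset (Finset V → V → ZMod p)) ⊆ Tr.biUnion fun q =>
      univ.filter fun φ => ∀ T ∈ q.2.2.image (fun x => insert x q.1), φ T ∈ Bad p q.2.1 := by
    intro φ _
    obtain ⟨R, A, hA, hX⟩ := hcon φ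
    obtain ⟨X, hXs, hXc⟩ := Finset.exists_subset_card_eq hX
    rw [mem_biUnion]
    refine ⟨(R, A, X), ?_, ?_⟩
    · rw [hTr, mem_filter]
      refine ⟨mem_univ _, hA, hXc, ?_⟩
      rw [Finset.disjoint_left]
      intro x hx
      exact (mem_filter.1 (hXs hx)).2.1
    · rw [mem_filter]
      refine ⟨mem_univ _, ?_⟩
      intro T hT
      rw [mem_image] at hT
      obtain ⟨x, hx, rfl⟩ := hT
      exact (mem_filter.1 (hXs hx)).2.2
  have hone : ∀ q ∈ Tr, (((univ : Finset (Finset V → V → ZMod p)).filter
      fun φ => ∀ T ∈ q.2.2.image (fun x => insert x q.1), φ T ∈ Bad p q.2.1).card) * p ^ t ≤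
        2 ^ t * N := by
    intro q hq
    rw [hTr, mem_filter] at hq
    obtain ⟨-, hA, hXc, hdis⟩ := hq
    have hcard : (q.2.2.image (fun x => insert x q.1)).card = t := by
      rw [card_image_of_injOn, hXc]
      intro x hx y hy hxy
      simp only at hxy
      have hx' : x ∉ q.1 := Finset.disjoint_left.1 hdis hx
      have : x ∈ insert y q.1 := by rw [← hxy]; exact mem_insert_self _ _
      rcases mem_insert.1 this with h | h
      · exact h
      · exact absurd h hx'
    have h1 := card_constraint (ι := Finset V) (G := V → ZMod p)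
      (q.2.2.image (fun x => insert x q.1)) (Bad p q.2.1)
    rw [hcard] at h1
    have h2 := bad_card (p := p) q.2.1 hr hA hp
    have hG : 0 < Fintype.card (V → ZMod p) := Fintype.card_pos
    have h3 : (((univ : Finset (Finset V → V → ZMod p)).filter
      fun φ => ∀ T ∈ q.2.2.image (fun x => insert x q.1), φ T ∈ Bad p q.2.1).card * p ^ t) *
        Fintype.card (V → ZMod p) ^ t ≤ (2 ^ t * N) * Fintype.card (V → ZMod p) ^ t := by
      calc _ = (((univ : Finset (Finset V → V → ZMod p)).filter
            fun φ => ∀ T ∈ q.2.2.image (fun x => insert x q.1), φ T ∈ Bad p q.2.1).card *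
              Fintype.card (V → ZMod p) ^ t) * p ^ t := by ring
        _ = ((Bad p q.2.1).card ^ t * N) * p ^ t := by rw [h1]
        _ = ((Bad p q.2.1).card * p) ^ t * N := by rw [mul_pow]; ring
        _ ≤ (2 * Fintype.card (V → ZMod p)) ^ t * N := by gcongr
        _ = _ := by rw [mul_pow]; ring
    exact Nat.le_of_mul_le_mul_right h3 (by positivity)
  have hfin : N * p ^ t ≤ 8 ^ Fintype.card V * (2 ^ t * N) := by
    calc N * p ^ t = (univ : Finset (Finset V → V → ZMod p)).card * p ^ t := by rw [card_univ]
      _ ≤ (∑ q ∈ Tr, (((univ : Finset (Finset V → V → ZMod p)).filter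
        fun φ => ∀ T ∈ q.2.2.image (fun x => insert x q.1), φ T ∈ Bad p q.2.1).card)) * p ^ t :=
          Nat.mul_le_mul_right _ ((card_le_card hcover).trans card_biUnion_le)
      _ = ∑ q ∈ Tr, (((univ : Finset (Finset V → V → ZMod p)).filter
        fun φ => ∀ T ∈ q.2.2.image (fun x => insert x q.1), φ T ∈ Bad p q.2.1).card) * p ^ t := by
          rw [sum_mul]
      _ ≤ ∑ q ∈ Tr, 2 ^ t * N := Finset.sum_le_sum hone
      _ = Tr.card * (2 ^ t * N) := by rw [sum_const, smul_eq_mul]
      _ ≤ _ := Nat.mul_le_mul_right _ hTrc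
  have hNpos : 0 < N := Fintype.card_pos
  have : p ^ t * N ≤ 8 ^ Fintype.card V * 2 ^ t * N := by
    calc p ^ t * N = N * p ^ t := by ring
      _ ≤ _ := hfin
      _ = _ := by ring
  have := Nat.le_of_mul_le_mul_right this hNpos
  omega

end Pool.Agent.R82.Rand
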