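import Mathlib
import Pool.Agent.R82.Rand

set_option autoImplicit false

namespace Pool.Agent.R82.Constr

open Finset Pool.Agent.R82.Rand

variable {V I : Type} [Fintype V] [DecidableEq V] [Fintype I] [DecidableEq I]

/-- numbers of vertices of `e` in the classes -/
def ty (c : V → I) (e : Finset V) : I → ℕ := fun i => (e.filter fun v => c v = i).card

theorem sum_ty (c : V → I) (e : Finset V) : ∑ i, ty c e i = e.card :=
  (Finset.card_eq_sum_card_fiberwise (fun _ _ => mem_univ _)).symm

theorem ty_insert (c : V → I) {S : Finset V} {x : V} (hx : x ∉ S) :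
    ty c (insert x S) = ty c S + Pi.single (c x) 1 := by
  ext i
  simp only [ty, Pi.add_apply]
  rw [filter_insert]
  by_cases h : c x = i
  · subst h
    rw [if_pos rfl, card_insert_of_notMem, Pi.single_eq_same]
    intro h
    exact hx (mem_filter.1 h).1
  · rw [if_neg h, Pi.single_eq_of_ne (Ne.symm h), add_zero]

/-- the hypergraph of the construction -/
def HG (J : (I → ℕ) → I) (c : V → I) (p : ℕ) [NeZero p] (φ : Finset V → V → ZMod p) (k : ℕ) :
    Finset (Finset V) :=
  univ.filter fun e => e.card = k ∧ ∀ j, J (ty c e + Pi.single j 1) = j →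
    φ (e.filter fun v => c v ≠ j) ∉ Bad p (e.filter fun v => c v = j)

theorem free (J : (I → ℕ) → I) (c : V → I) (p : ℕ) [NeZero p] (φ : Finset V → V → ZMod p)
    {k C ℓ : ℕ} (hM : ∀ M : I → ℕ, ∑ i, M i ≤ ℓ * M (J M) + C) (hk : C ≤ k) (W : Finset V)
    (hW : W.card = k + 1) : ∃ e ⊆ W, e.card = k ∧ e ∉ HG J c p φ k := by
  by_contra hcon
  push Not at hcon
  set j := J (ty c W) with hj
  set B := W.filter (fun v => c v = j) with hB
  have hBn : B.Nonempty := by
    rw [← card_pos]
    by_contra h0
    have h1 := hM (ty c W)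
    rw [sum_ty, hW, ← hj] at h1
    have h2 : ty c W j = 0 := by
      have : ty c W j = B.card := rfl
      omega
    rw [h2] at h1
    omega
  set g := φ (W.filter fun v => c v ≠ j) with hg
  have key : ∀ u ∈ B, g ∉ Bad p (B.erase u) := by
    intro u hu
    have huW : u ∈ W := (mem_filter.1 hu).1
    have hcu : c u = j := (mem_filter.1 hu).2
    have he : W.erase u ∈ HG J c p φ k := hcon _ (erase_subset _ _) (by
      rw [card_erase_of_mem huW, hW]; omega)
    unfold HG at he
    rw [mem_filter] at he
    have h1 := he.2.2 j (by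
      have h2 := ty_insert c (S := W.erase u) (x := u) (by simp)
      rw [insert_erase huW, hcu] at h2
      rw [← h2])
    have h3 : (W.erase u).filter (fun v => c v ≠ j) = W.filter (fun v => c v ≠ j) := by
      ext v
      simp only [mem_filter, mem_erase]
      constructor
      · rintro ⟨⟨-, h⟩, h'⟩; exact ⟨h, h'⟩
      · rintro ⟨h, h'⟩
        refine ⟨⟨?_, h⟩, h'⟩
        rintro rfl
        exact h' hcu
    have h4 : (W.erase u).filter (fun v => c v = j) = B.erase u := by
      ext v
      simp only [mem_filter, mem_erase, hB]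
      tauto
    rw [h3, h4] at h1
    exact h1
  have key' : ∀ u ∈ B, (∀ z, ∃ a ∈ B.erase u, g a = z) ∧ ∑ a ∈ B.erase u, g a ≠ 0 := by
    intro u hu
    have h := key u hu
    unfold Bad at h
    rw [mem_filter] at h
    push Not at h
    exact h (mem_univ _)
  obtain ⟨u0, hu0⟩ := hBn
  obtain ⟨a, ha, haz⟩ := (key' u0 hu0).1 (∑ b ∈ B, g b)
  have haB : a ∈ B := mem_of_mem_erase ha
  apply (key' a haB).2
  have := Finset.add_sum_erase B g haB
  rw [haz] at this
  exact add_eq_left.1 this

/-- the number of vertices which complete `S` to an edge -/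
def codeg (H : Finset (Finset V)) (S : Finset V) : ℕ :=
  (univ.filter fun v => v ∉ S ∧ insert v S ∈ H).card

theorem codeg_ge (J : (I → ℕ) → I) (c : V → I) (p : ℕ) [NeZero p] (φ : Finset V → V → ZMod p)
    {k C ℓ D b r t : ℕ} (hcard : Fintype.card I = ℓ)
    (hM : ∀ M : I → ℕ, ∑ i, M i ≤ ℓ * M (J M) + C)
    (hD : ∀ s : I → ℕ, ((univ : Finset I).filter fun j => J (s + Pi.single j 2) = j).card ≤ D)
    (hk : ℓ * r + C ≤ k) (hk1 : 1 ≤ k)
    (hb : ∀ i, ((univ : Finset V).filter fun v => c v = i).card ≤ b)
    (hφ : ∀ R A : Finset V, r ≤ A.card →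
      ((univ : Finset V).filter fun x => x ∉ R ∧ φ (insert x R) ∈ Bad p A).card < t)
    (S : Finset V) (hS : S.card = k - 1) :
    Fintype.card V ≤ codeg (HG J c p φ k) S + k + D * b + ℓ * t := by
  set Self := (univ : Finset I).filter fun j => J (ty c S + Pi.single j 2) = j with hSelf
  set P1 : Finset V := Self.biUnion fun i => univ.filter fun v => c v = i with hP1
  set P2 : Finset V := ((univ : Finset I).filter fun j => r ≤ (S.filter fun v => c v = j).card).biUnion
    fun j => univ.filter fun x => x ∉ (S.filter fun v => c v ≠ j) ∧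
      φ (insert x (S.filter fun v => c v ≠ j)) ∈ Bad p (S.filter fun v => c v = j) with hP2
  have hcov : (univ : Finset V) ⊆ (((univ.filter fun v => v ∉ S ∧ insert v S ∈ HG J c p φ k) ∪ S) ∪ P1)
      ∪ P2 := by
    intro x _
    by_contra hx
    simp only [mem_union, not_or] at hx
    obtain ⟨⟨⟨hx1, hxS⟩, hxP1⟩, hxP2⟩ := hx
    apply hx1
    rw [mem_filter]
    refine ⟨mem_univ _, hxS, ?_⟩
    unfold HG
    rw [mem_filter]
    refine ⟨mem_univ _, ?_, ?_⟩
    · rw [card_insert_of_notMem hxS, hS]; omega
    intro j hj hbad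
    rw [ty_insert c hxS] at hj
    have hne : c x ≠ j := by
      rintro rfl
      apply hxP1
      rw [hP1, mem_biUnion]
      refine ⟨c x, ?_, by simp⟩
      rw [hSelf, mem_filter]
      refine ⟨mem_univ _, ?_⟩
      rw [add_assoc, ← Pi.single_add] at hj
      exact hj
    apply hxP2
    rw [hP2, mem_biUnion]
    refine ⟨j, ?_, ?_⟩
    · rw [mem_filter]
      refine ⟨mem_univ _, ?_⟩
      by_contra hlt
      push Not at hlt
      have h1 := hM (ty c S + Pi.single (c x) 1 + Pi.single j 1)
      rw [hj] at h1
      have h2 : ∑ i, (ty c S + Pi.single (c x) 1 + Pi.single j 1 : I → ℕ) i = k + 1 := by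
        simp only [Pi.add_apply, sum_add_distrib, sum_ty, hS, Finset.sum_pi_single', mem_univ,
          if_true]
        omega
      have h3 : (ty c S + Pi.single (c x) 1 + Pi.single j 1 : I → ℕ) j =
          (S.filter fun v => c v = j).card + 1 := by
        simp only [Pi.add_apply, Pi.single_eq_same, Pi.single_eq_of_ne (Ne.symm hne), add_zero]
        rfl
      rw [h2, h3] at h1
      have h4 : ℓ * ((S.filter fun v => c v = j).card + 1) ≤ ℓ * r :=
        Nat.mul_le_mul_left _ hlt
      omega
    · rw [mem_filter]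
      refine ⟨mem_univ _, ?_, ?_⟩
      · intro h; exact hxS (mem_filter.1 h).1
      · have h1 : (insert x S).filter (fun v => c v ≠ j) = insert x (S.filter fun v => c v ≠ j) := by
          rw [filter_insert, if_pos hne]
        have h2 : (insert x S).filter (fun v => c v = j) = S.filter fun v => c v = j := by
          rw [filter_insert, if_neg hne]
        rw [h1, h2] at hbad
        exact hbad
  have hP1c : P1.card ≤ D * b := by
    refine card_biUnion_le.trans ?_
    calc _ ≤ ∑ _i ∈ Self, b := Finset.sum_le_sum fun i _ => hb i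
      _ = Self.card * b := by rw [sum_const, smul_eq_mul]
      _ ≤ _ := Nat.mul_le_mul_right _ (hD _)
  have hP2c : P2.card ≤ ℓ * t := by
    refine card_biUnion_le.trans ?_
    calc _ ≤ ∑ _j ∈ ((univ : Finset I).filter fun j => r ≤ (S.filter fun v => c v = j).card), t :=
          Finset.sum_le_sum fun j hj => (hφ _ _ (mem_filter.1 hj).2).le
      _ = _ := by rw [sum_const, smul_eq_mul]
      _ ≤ _ := Nat.mul_le_mul_right _ ((card_filter_le _ _).trans (by rw [card_univ, hcard]))
  have h := card_le_card hcov
  rw [card_univ] at h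
  have h1 := card_union_le ((((univ : Finset V).filter fun v => v ∉ S ∧ insert v S ∈ HG J c p φ k) ∪ S)
    ∪ P1) P2
  have h2 := card_union_le (((univ : Finset V).filter fun v => v ∉ S ∧ insert v S ∈ HG J c p φ k) ∪ S) P1
  have h3 := card_union_le ((univ : Finset V).filter fun v => v ∉ S ∧ insert v S ∈ HG J c p φ k) S
  unfold codeg
  omega

end Pool.Agent.R82.Constr
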