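import Mathlib

set_option autoImplicit false

namespace Pool.Agent.R82.Lab

open Finset

/-- argmax of `(x + c, y, z)` with cyclic tie breaking, where `x + c + y + z ≡ 2 mod 3` -/
def J0 (x y z : ℕ) : Fin 3 :=
  let a := x + (2 + 2 * (x + y + z)) % 3
  if y ≤ a ∧ z < a then 0 else if z ≤ y ∧ a < y then 1 else 2

theorem J0_not_all (x y z : ℕ) :
    ¬ (J0 (x + 1) y z = 0 ∧ J0 x (y + 1) z = 1 ∧ J0 x y (z + 1) = 2) := by
  rintro ⟨h1, h2, h3⟩
  unfold J0 at h1 h2 h3
  simp only at h1 h2 h3
  have e1 : x + 1 + y + z = x + y + z + 1 := by ring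
  have e2 : x + (y + 1) + z = x + y + z + 1 := by ring
  have e3 : x + y + (z + 1) = x + y + z + 1 := by ring
  rw [e1] at h1
  rw [e2] at h2
  rw [e3] at h3
  have hr : (2 + 2 * (x + y + z + 1)) % 3 < 3 := Nat.mod_lt _ (by norm_num)
  have hk := Nat.div_add_mod (2 + 2 * (x + y + z + 1)) 3
  generalize (2 + 2 * (x + y + z + 1)) / 3 = k at hk
  generalize (2 + 2 * (x + y + z + 1)) % 3 = r at *
  split_ifs at h1 with a1 a2
  · split_ifs at h2 with b1 b2
    · simp at h2
    · split_ifs at h3 with c1 c2
      · simp at h3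
      · simp at h3
      · have q1 : z ≤ x + r := by omega
        have q2 : x + r ≤ y := by omega
        have q3 : y ≤ z + 1 ∧ x + r ≤ z + 1 := by omega
        have q4 : z = x + r ∨ z + 1 = x + r := by omega
        interval_cases r <;> omega
    · simp at h2
  · simp at h1
  · simp at h1

theorem J0_max (x y z : ℕ) : x + y + z ≤ 3 * (if J0 x y z = 0 then x else if J0 x y z = 1 then y else z) + 6 := by
  unfold J0
  simp only
  by_cases h1 : y ≤ x + (2 + 2 * (x + y + z)) % 3 ∧ z < x + (2 + 2 * (x + y + z)) % 3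
  · rw [if_pos h1]
    simp
    omega
  · rw [if_neg h1]
    by_cases h2 : z ≤ y ∧ x + (2 + 2 * (x + y + z)) % 3 < y
    · rw [if_pos h2]
      simp
      omega
    · rw [if_neg h2]
      simp
      omega

/-- the basic labelling of triples -/
def J1 (S : Fin 3 → ℕ) : Fin 3 := J0 (S 0 / 2) (S 1 / 2) (S 2 / 2)

theorem J1_card (s : Fin 3 → ℕ) :
    ((univ : Finset (Fin 3)).filter fun g => J1 (s + Pi.single g 2) = g).card ≤ 2 := by
  by_contra hcon
  push Not at hcon
  have hall : ((univ : Finset (Fin 3)).filter fun g => J1 (s + Pi.single g 2) = g) = univ := by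
    apply Finset.eq_of_subset_of_card_le (filter_subset _ _)
    rw [card_univ, Fintype.card_fin]
    omega
  have h : ∀ g : Fin 3, J1 (s + Pi.single g 2) = g := by
    intro g
    have : g ∈ ((univ : Finset (Fin 3)).filter fun g => J1 (s + Pi.single g 2) = g) := by
      rw [hall]; exact mem_univ g
    exact (mem_filter.1 this).2
  apply J0_not_all (s 0 / 2) (s 1 / 2) (s 2 / 2)
  have h0 := h 0
  have h1 := h 1
  have h2 := h 2
  unfold J1 at h0 h1 h2
  simp only [Pi.add_apply, Pi.single_apply] at h0 h1 h2
  refine ⟨?_, ?_, ?_⟩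
  · simpa using h0
  · simpa using h1
  · simpa using h2

theorem J1_max (S : Fin 3 → ℕ) : ∑ g, S g ≤ 3 * S (J1 S) + 15 := by
  have h := J0_max (S 0 / 2) (S 1 / 2) (S 2 / 2)
  rw [Fin.sum_univ_three]
  have h' : (if J0 (S 0 / 2) (S 1 / 2) (S 2 / 2) = 0 then S 0 / 2 else
      if J0 (S 0 / 2) (S 1 / 2) (S 2 / 2) = 1 then S 1 / 2 else S 2 / 2) = S (J1 S) / 2 := by
    unfold J1
    generalize J0 (S 0 / 2) (S 1 / 2) (S 2 / 2) = j
    fin_cases j <;> simp
  rw [h'] at h
  omega

/-- a labelling of the vectors of multiplicities -/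
theorem exists_lab (m : ℕ) : ∃ (I : Type) (_ : Fintype I) (_ : DecidableEq I)
    (J : (I → ℕ) → I) (C : ℕ), Fintype.card I = 3 ^ m ∧
    (∀ s : I → ℕ, ((univ : Finset I).filter fun j => J (s + Pi.single j 2) = j).card ≤ 2 ^ m) ∧
    ∀ M : I → ℕ, ∑ i, M i ≤ 3 ^ m * M (J M) + C := by
  induction m with
  | zero =>
    refine ⟨Unit, inferInstance, inferInstance, fun _ => (), 0, by simp, ?_, ?_⟩
    · intro s
      exact (card_filter_le _ _).trans (by simp)
    · intro M; simp
  | succ m ih =>
    obtain ⟨I, hF, hD, J, C, hcard, hs, hM⟩ := ih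
    refine ⟨Fin 3 × I, inferInstance, inferInstance,
      fun M => (J1 (fun g => ∑ i, M (g, i)), J (fun i => M (J1 (fun g => ∑ i, M (g, i)), i))),
      3 * C + 15, ?_, ?_, ?_⟩
    · rw [Fintype.card_prod, hcard, Fintype.card_fin]; ring
    · intro s
      set S : Fin 3 → ℕ := fun g => ∑ i, s (g, i) with hS
      have hsum : ∀ (g : Fin 3) (h : I), (fun g' => ∑ i, (s + Pi.single (g, h) 2 : Fin 3 × I → ℕ) (g', i)) =
          S + Pi.single g 2 := by
        intro g h
        ext g'
        simp only [Pi.add_apply, sum_add_distrib, hS]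
        congr 1
        by_cases hg : g' = g
        · subst hg
          rw [Pi.single_eq_same]
          rw [Finset.sum_eq_single h]
          · rw [Pi.single_eq_same]
          · intro b _ hb
            rw [Pi.single_eq_of_ne]
            intro hh
            exact hb (Prod.ext_iff.1 hh).2
          · intro hh; exact absurd (mem_univ h) hh
        · rw [Pi.single_eq_of_ne hg]
          apply Finset.sum_eq_zero
          intro b _
          rw [Pi.single_eq_of_ne]
          intro hh
          exact hg (Prod.ext_iff.1 hh).1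
      have hrow : ∀ (g : Fin 3) (h : I), (fun i => (s + Pi.single (g, h) 2 : Fin 3 × I → ℕ) (g, i)) =
          (fun i => s (g, i)) + Pi.single h 2 := by
        intro g h
        ext i
        simp only [Pi.add_apply]
        congr 1
        by_cases hi : i = h
        · subst hi
          rw [Pi.single_eq_same, Pi.single_eq_same]
        · rw [Pi.single_eq_of_ne hi, Pi.single_eq_of_ne]
          intro hh
          exact hi (Prod.ext_iff.1 hh).2
      have hsub : ((univ : Finset (Fin 3 × I)).filter fun j =>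
          (J1 (fun g => ∑ i, (s + Pi.single j 2 : Fin 3 × I → ℕ) (g, i)),
            J (fun i => (s + Pi.single j 2 : Fin 3 × I → ℕ) (J1 (fun g => ∑ i, (s + Pi.single j 2 : Fin 3 × I → ℕ) (g, i)), i))) = j)
          ⊆ ((univ : Finset (Fin 3)).filter fun g => J1 (S + Pi.single g 2) = g).biUnion
            (fun g => ((univ : Finset I).filter fun h =>
              J ((fun i => s (g, i)) + Pi.single h 2) = h).image (fun h => (g, h))) := by
        rintro ⟨g, h⟩ hj
        rw [mem_filter, hsum] at hj
        have h1 := (Prod.ext_iff.1 hj.2).1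
        have h2 := (Prod.ext_iff.1 hj.2).2
        simp only at h1 h2
        rw [h1, hrow] at h2
        rw [mem_biUnion]
        refine ⟨g, mem_filter.2 ⟨mem_univ _, h1⟩, ?_⟩
        rw [mem_image]
        exact ⟨h, mem_filter.2 ⟨mem_univ _, h2⟩, rfl⟩
      refine (card_le_card hsub).trans ?_
      refine card_biUnion_le.trans ?_
      calc ∑ g ∈ ((univ : Finset (Fin 3)).filter fun g => J1 (S + Pi.single g 2) = g),
            (((univ : Finset I).filter fun h =>
              J ((fun i => s (g, i)) + Pi.single h 2) = h).image (fun h => (g, h))).card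
          ≤ ∑ g ∈ ((univ : Finset (Fin 3)).filter fun g => J1 (S + Pi.single g 2) = g), 2 ^ m :=
            Finset.sum_le_sum fun g _ => card_image_le.trans (hs _)
        _ = ((univ : Finset (Fin 3)).filter fun g => J1 (S + Pi.single g 2) = g).card * 2 ^ m := by
            rw [sum_const, smul_eq_mul]
        _ ≤ 2 * 2 ^ m := Nat.mul_le_mul_right _ (J1_card S)
        _ = 2 ^ (m + 1) := by ring
    · intro M
      have h1 := J1_max (fun g => ∑ i, M (g, i))
      have h2 := hM (fun i => M (J1 (fun g => ∑ i, M (g, i)), i))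
      rw [Fintype.sum_prod_type]
      simp only at h1 h2 ⊢
      calc _ ≤ _ := h1
        _ ≤ 3 * (3 ^ m * M (J1 (fun g => ∑ i, M (g, i)),
              J (fun i => M (J1 (fun g => ∑ i, M (g, i)), i))) + C) + 15 := by omega
        _ = _ := by ring

end Pool.Agent.R82.Lab
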